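import Pool.Agent.Helper84.FP.Goals

/-!
# Project FQ (MP_43a2f8_nt), packet GAP
-/

set_option autoImplicit false

namespace Pool.Agent.Helper81.FQ.GAP

open Finset Pool.Agent.Helper91.FP Pool.Agent.Helper84.FP

/-- exact factor -/
def ee (k : ℕ → ℕ) (p : ℕ) : ℚ := (G p (k p) : ℚ) / (p : ℚ) ^ k p

/-- limit factor -/
def ff (k : ℕ → ℕ) (p : ℕ) : ℚ :=
  (((k p : ℚ) + 1) * (p : ℚ) ^ 2 - ((k p : ℚ) + 2) * p) / ((p : ℚ) - 1) ^ 2

theorem closedQ (p k : ℕ) : ((p : ℚ) - 1) ^ 2 * (G p k : ℚ) =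
    (((k : ℚ) + 1) * (p : ℚ) ^ 2 - ((k : ℚ) + 2) * p) * (p : ℚ) ^ k + 1 := by
  have h := congrArg (fun z : ℤ => (z : ℚ)) (G_closed p k)
  push_cast at h
  exact h

theorem lowerQ {p k : ℕ} (hp : 2 ≤ p) (hk : 1 ≤ k) :
    ((k : ℚ) + 1) * (p : ℚ) ^ k < (G p k : ℚ) := by
  have h := G_lower p k hk
  have h1 : 0 < k * p ^ (k - 1) := Nat.mul_pos hk (pow_pos (by omega) _)
  have h2 : (k + 1) * p ^ k < G p k := by omega
  exact_mod_cast h2

section one

variable {k : ℕ → ℕ} {p : ℕ}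

theorem e_sub_f (hp : 2 ≤ p) : ee k p - ff k p = 1 / ((p : ℚ) ^ k p * ((p : ℚ) - 1) ^ 2) := by
  have hP : (2 : ℚ) ≤ p := by exact_mod_cast hp
  have h1 : (p : ℚ) ^ k p ≠ 0 := pow_ne_zero _ (by linarith)
  have h2 : ((p : ℚ) - 1) ^ 2 ≠ 0 := pow_ne_zero _ (by linarith)
  have h3 := closedQ p (k p)
  unfold ee ff
  rw [div_sub_div _ _ h1 h2]
  congr 1
  linear_combination h3

theorem c_lt_e (hp : 2 ≤ p) (hk : 1 ≤ k p) : (k p : ℚ) + 1 < ee k p := by
  have hP : (2 : ℚ) ≤ p := by exact_mod_cast hp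
  have h1 : (0 : ℚ) < (p : ℚ) ^ k p := pow_pos (by linarith) _
  unfold ee
  rw [lt_div_iff₀ h1]
  exact lowerQ hp hk

theorem f_pos (hp : 2 ≤ p) (hk : 1 ≤ k p) : 0 < ff k p := by
  have hP : (2 : ℚ) ≤ p := by exact_mod_cast hp
  have hK : (1 : ℚ) ≤ k p := by exact_mod_cast hk
  unfold ff
  apply div_pos
  · nlinarith [mul_nonneg (sub_nonneg.2 hP) (sub_nonneg.2 hK)]
  · exact pow_pos (by linarith) _

theorem x_L (hp : 2 ≤ p) (hk : 1 ≤ k p) :
    1 - ff k p / ee k p ≤ 1 / ((p : ℚ) ^ k p * ((p : ℚ) - 1) ^ 2) := by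
  have hK : (1 : ℚ) ≤ k p := by exact_mod_cast hk
  have he := c_lt_e hp hk
  have he0 : (0 : ℚ) < ee k p := by linarith
  have h1 : 1 - ff k p / ee k p = (ee k p - ff k p) / ee k p := by
    rw [sub_div, div_self he0.ne']
  have hP : (2 : ℚ) ≤ p := by exact_mod_cast hp
  have h2 : (0 : ℚ) < (p : ℚ) ^ k p * ((p : ℚ) - 1) ^ 2 :=
    mul_pos (pow_pos (by linarith) _) (pow_pos (by linarith) _)
  rw [h1, e_sub_f hp]
  exact div_le_self (by positivity) (by linarith)

theorem x_U (hp : 2 ≤ p) (hk : 1 ≤ k p) :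
    1 - ((k p : ℚ) + 1) / ee k p ≤ 1 / ((p : ℚ) - 1) := by
  have hK : (1 : ℚ) ≤ k p := by exact_mod_cast hk
  have he := c_lt_e hp hk
  have he0 : (0 : ℚ) < ee k p := by linarith
  have hP : (2 : ℚ) ≤ p := by exact_mod_cast hp
  have hP1 : (0 : ℚ) < (p : ℚ) - 1 := by linarith
  have h1 : (0 : ℚ) < (p : ℚ) ^ k p := pow_pos (by linarith) _
  have h11 : (1 : ℚ) ≤ (p : ℚ) ^ k p := one_le_pow₀ (by linarith)
  rw [sub_le_iff_le_add, ← sub_le_iff_le_add', le_div_iff₀ he0, sub_mul, one_mul,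
    div_mul_eq_mul_div, one_mul]
  rw [sub_le_iff_le_add, ← sub_le_iff_le_add', le_div_iff₀ hP1]
  -- (e - (k+1)) (p - 1) ≤ e
  have key : ((G p (k p) : ℚ) - ((k p : ℚ) + 1) * (p : ℚ) ^ k p) * ((p : ℚ) - 1)
      ≤ (G p (k p) : ℚ) := by
    have h3 := closedQ p (k p)
    have h4 := (lowerQ hp hk).le
    have h5 : ((G p (k p) : ℚ) - ((k p : ℚ) + 1) * (p : ℚ) ^ k p) * ((p : ℚ) - 1) * ((p : ℚ) - 1)
        = (p : ℚ) ^ k p * ((k p : ℚ) * p - k p - 1) + 1 := by
      linear_combination h3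
    have h6 : ((k p : ℚ) + 1) * (p : ℚ) ^ k p * ((p : ℚ) - 1) ≤ (G p (k p) : ℚ) * ((p : ℚ) - 1) :=
      mul_le_mul_of_nonneg_right h4 hP1.le
    have h7 : (1 : ℚ) ≤ (p : ℚ) ^ k p * p := by nlinarith
    have h8 : ((G p (k p) : ℚ) - ((k p : ℚ) + 1) * (p : ℚ) ^ k p) * ((p : ℚ) - 1) * ((p : ℚ) - 1)
        ≤ (G p (k p) : ℚ) * ((p : ℚ) - 1) := by
      rw [h5]
      nlinarith
    exact le_of_mul_le_mul_right h8 hP1
  have h9 : ee k p * (p : ℚ) ^ k p = (G p (k p) : ℚ) := by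
    unfold ee
    exact div_mul_cancel₀ _ h1.ne'
  have h10 : ((ee k p - ((k p : ℚ) + 1)) * ((p : ℚ) - 1)) * (p : ℚ) ^ k p
      ≤ ee k p * (p : ℚ) ^ k p := by
    rw [h9]
    calc ((ee k p - ((k p : ℚ) + 1)) * ((p : ℚ) - 1)) * (p : ℚ) ^ k p
        = (ee k p * (p : ℚ) ^ k p - ((k p : ℚ) + 1) * (p : ℚ) ^ k p) * ((p : ℚ) - 1) := by ring
      _ ≤ (G p (k p) : ℚ) := by rw [h9]; exact key
  have h12 := le_of_mul_le_mul_right h10 h1
  linarith

end one

theorem one_sub_prod_le {S : Finset ℕ} {x : ℕ → ℚ} (h0 : ∀ p ∈ S, 0 ≤ x p) (h1 : ∀ p ∈ S, x p ≤ 1) :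
    1 - ∏ p ∈ S, (1 - x p) ≤ ∑ p ∈ S, x p := by
  induction S using Finset.induction_on with
  | empty => simp
  | insert q S hq ih =>
    rw [prod_insert hq, sum_insert hq]
    have ih' := ih (fun p hp => h0 p (mem_insert_of_mem hp)) (fun p hp => h1 p (mem_insert_of_mem hp))
    have a0 := h0 q (mem_insert_self q S)
    have a1 := h1 q (mem_insert_self q S)
    have hP : ∏ p ∈ S, (1 - x p) ≤ 1 :=
      prod_le_one (fun p hp => sub_nonneg.2 (h1 p (mem_insert_of_mem hp)))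
        (fun p hp => by linarith [h0 p (mem_insert_of_mem hp)])
    nlinarith

theorem t : S_GAP := by
  intro S E L k N hS hk hG hES hLS hd hne
  by_contra hcon
  push Not at hcon
  obtain ⟨hL, hU⟩ := hcon
  -- positivity
  have he : ∀ p ∈ S, (k p : ℚ) + 1 < ee k p := fun p hp => c_lt_e (hS p hp) (hk p hp)
  have hc0 : ∀ p, (0 : ℚ) < (k p : ℚ) + 1 := fun p => by positivity
  have he0 : ∀ p ∈ S, 0 < ee k p := fun p hp => (hc0 p).trans (he p hp)
  have hSne : ∃ p ∈ S, p ∉ E := by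
    by_contra h
    push Not at h
    exact hne (Subset.antisymm hES h)
  obtain ⟨p0, hp0, hp0E⟩ := hSne
  -- N = ∏ e
  have hN : (N : ℚ) = ∏ p ∈ S, ee k p := by
    have hPk : ∏ p ∈ S, (p : ℚ) ^ k p ≠ 0 := by
      rw [prod_ne_zero_iff]
      intro p hp
      have := hS p hp
      exact pow_ne_zero _ (by exact_mod_cast (by omega : p ≠ 0))
    have h1 : ∏ p ∈ S, (G p (k p) : ℚ) = N * ∏ p ∈ S, (p : ℚ) ^ k p := by exact_mod_cast hG
    unfold ee
    rw [prod_div_distrib, h1, mul_div_assoc, div_self hPk, mul_one]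
  have hN0 : (0 : ℚ) < N := by
    rw [hN]
    exact prod_pos he0
  -- the weight
  let v : ℕ → ℕ := fun p => (if p ∈ E then p ^ k p else 1) * (if p ∈ L then (p - 1) ^ 2 else 1)
  have hW : W k E L = ∏ p ∈ S, v p := by
    change _ = ∏ p ∈ S, (if p ∈ E then p ^ k p else 1) * (if p ∈ L then (p - 1) ^ 2 else 1)
    rw [prod_mul_distrib, prod_ite_mem, prod_ite_mem, inter_eq_right.2 hES, inter_eq_right.2 hLS]
    rfl
  have hv0 : ∀ p ∈ S, 0 < v p := by
    intro p hp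
    have := hS p hp
    change 0 < (if p ∈ E then p ^ k p else 1) * (if p ∈ L then (p - 1) ^ 2 else 1)
    apply Nat.mul_pos
    · split_ifs
      · exact pow_pos (by omega) _
      · exact one_pos
    · split_ifs
      · exact pow_pos (by omega) _
      · exact one_pos
  have hW0 : 0 < W k E L := by
    rw [hW]
    exact prod_pos hv0
  -- the factors
  let y : ℕ → ℚ := fun p => if p ∈ E then ee k p else if p ∈ L then ff k p else (k p : ℚ) + 1
  let z : ℕ → ℤ := fun p => if p ∈ E then (G p (k p) : ℤ) else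
    if p ∈ L then ((k p : ℤ) + 1) * (p : ℤ) ^ 2 - ((k p : ℤ) + 2) * p else (k p : ℤ) + 1
  have hz : ∀ p ∈ S, y p * (v p : ℚ) = (z p : ℚ) := by
    intro p hp
    have h2 := hS p hp
    have hP : (2 : ℚ) ≤ p := by exact_mod_cast h2
    change (if p ∈ E then ee k p else if p ∈ L then ff k p else (k p : ℚ) + 1)
      * (((if p ∈ E then p ^ k p else 1) * (if p ∈ L then (p - 1) ^ 2 else 1) : ℕ) : ℚ)
      = ((if p ∈ E then (G p (k p) : ℤ) else
        if p ∈ L then ((k p : ℤ) + 1) * (p : ℤ) ^ 2 - ((k p : ℤ) + 2) * p else (k p : ℤ) + 1 : ℤ) : ℚ)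
    by_cases hE : p ∈ E
    · have hL' : p ∉ L := Finset.disjoint_left.1 hd hE
      rw [if_pos hE, if_pos hE, if_pos hE, if_neg hL']
      push_cast
      rw [mul_one]
      unfold ee
      exact div_mul_cancel₀ _ (pow_ne_zero _ (by linarith))
    · rw [if_neg hE, if_neg hE, if_neg hE]
      by_cases hL' : p ∈ L
      · rw [if_pos hL', if_pos hL', if_pos hL']
        push_cast [Nat.cast_sub (by omega : 1 ≤ p)]
        rw [one_mul]
        unfold ff
        exact div_mul_cancel₀ _ (pow_ne_zero _ (by linarith))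
      · rw [if_neg hL', if_neg hL', if_neg hL']
        push_cast
        ring
  -- `y ≤ e`
  have hy0 : ∀ p ∈ S, 0 < y p := by
    intro p hp
    change 0 < (if p ∈ E then ee k p else if p ∈ L then ff k p else (k p : ℚ) + 1)
    split_ifs
    · exact he0 p hp
    · exact f_pos (hS p hp) (hk p hp)
    · exact hc0 p
  have hf : ∀ p ∈ S, ff k p < ee k p := by
    intro p hp
    have h2 := hS p hp
    have hP : (2 : ℚ) ≤ p := by exact_mod_cast h2
    have h1 := e_sub_f (k := k) h2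
    have h3 : (0 : ℚ) < 1 / ((p : ℚ) ^ k p * ((p : ℚ) - 1) ^ 2) :=
      div_pos one_pos (mul_pos (pow_pos (by linarith) _) (pow_pos (by linarith) _))
    linarith
  have hye : ∀ p ∈ S, y p ≤ ee k p := by
    intro p hp
    change (if p ∈ E then ee k p else if p ∈ L then ff k p else (k p : ℚ) + 1) ≤ _
    split_ifs
    · exact le_rfl
    · exact (hf p hp).le
    · exact (he p hp).le
  have hye0 : y p0 < ee k p0 := by
    change (if p0 ∈ E then ee k p0 else if p0 ∈ L then ff k p0 else (k p0 : ℚ) + 1) < _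
    rw [if_neg hp0E]
    split_ifs
    · exact hf p0 hp0
    · exact he p0 hp0
  have hρ : ∏ p ∈ S, y p < N := by
    rw [hN]
    exact prod_lt_prod hy0 hye ⟨p0, hp0, hye0⟩
  -- integrality
  have hint : (1 : ℚ) ≤ (N - ∏ p ∈ S, y p) * (W k E L : ℚ) := by
    have h1 : (N - ∏ p ∈ S, y p) * (W k E L : ℚ)
        = (((N : ℤ) * (W k E L : ℤ) - ∏ p ∈ S, z p : ℤ) : ℚ) := by
      have h2 : (∏ p ∈ S, y p) * (W k E L : ℚ) = ∏ p ∈ S, (z p : ℚ) := by
        rw [hW]
        push_cast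
        rw [← prod_mul_distrib]
        exact prod_congr rfl hz
      push_cast
      rw [sub_mul, h2]
    have h3 : (0 : ℚ) < (N - ∏ p ∈ S, y p) * (W k E L : ℚ) :=
      mul_pos (sub_pos.2 hρ) (by exact_mod_cast hW0)
    rw [h1] at h3 ⊢
    have h4 : 0 < (N : ℤ) * (W k E L : ℤ) - ∏ p ∈ S, z p := by exact_mod_cast h3
    exact_mod_cast (show (1 : ℤ) ≤ (N : ℤ) * (W k E L : ℤ) - ∏ p ∈ S, z p from h4)
  -- the upper bound
  have hcard : 0 < S.card := card_pos.2 ⟨p0, hp0⟩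
  set V : ℕ := N * S.card * W k E L with hV
  have hNn : 0 < N := by exact_mod_cast hN0
  have hV0 : 0 < V := Nat.mul_pos (Nat.mul_pos hNn hcard) hW0
  have hVq : (0 : ℚ) < V := by exact_mod_cast hV0
  have hx : ∀ p ∈ S, 1 - y p / ee k p < 1 / (V : ℚ) := by
    intro p hp
    have h2 := hS p hp
    have hP : (2 : ℚ) ≤ p := by exact_mod_cast h2
    change 1 - (if p ∈ E then ee k p else if p ∈ L then ff k p else (k p : ℚ) + 1) / ee k p < _
    by_cases hE : p ∈ E
    · rw [if_pos hE, div_self (he0 p hp).ne', sub_self]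
      exact div_pos one_pos hVq
    · rw [if_neg hE]
      by_cases hL' : p ∈ L
      · rw [if_pos hL']
        refine (x_L h2 (hk p hp)).trans_lt ?_
        apply one_div_lt_one_div_of_lt hVq
        have h3 := hL p hL'
        have h4 : (V : ℚ) < ((p ^ k p * (p - 1) ^ 2 : ℕ) : ℚ) := by exact_mod_cast h3
        push_cast [Nat.cast_sub (by omega : 1 ≤ p)] at h4
        exact h4
      · rw [if_neg hL']
        refine (x_U h2 (hk p hp)).trans_lt ?_
        apply one_div_lt_one_div_of_lt hVq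
        have h3 := hU p (by
          rw [mem_sdiff, mem_union]
          exact ⟨hp, fun h => h.elim hE hL'⟩)
        have h4 : (V : ℚ) < ((p - 1 : ℕ) : ℚ) := by exact_mod_cast h3
        push_cast [Nat.cast_sub (by omega : 1 ≤ p)] at h4
        exact h4
  have hsum : ∑ p ∈ S, (1 - y p / ee k p) < S.card * (1 / (V : ℚ)) := by
    have := sum_lt_sum_of_nonempty ⟨p0, hp0⟩ hx
    rwa [sum_const, nsmul_eq_mul] at this
  have hprod : ∏ p ∈ S, y p = N * ∏ p ∈ S, (1 - (1 - y p / ee k p)) := by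
    rw [hN, ← prod_mul_distrib]
    refine prod_congr rfl fun p hp => ?_
    rw [sub_sub_cancel, mul_div_cancel₀ _ (he0 p hp).ne']
  have hle : 1 - ∏ p ∈ S, (1 - (1 - y p / ee k p)) ≤ ∑ p ∈ S, (1 - y p / ee k p) := by
    apply one_sub_prod_le
    · intro p hp
      rw [sub_nonneg, div_le_one (he0 p hp)]
      exact hye p hp
    · intro p hp
      have := div_pos (hy0 p hp) (he0 p hp)
      linarith
  have hfin : (N - ∏ p ∈ S, y p) * (W k E L : ℚ) < 1 := by
    have h1 : (N : ℚ) - ∏ p ∈ S, y p < N * (S.card * (1 / (V : ℚ))) := by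
      rw [hprod]
      have := mul_lt_mul_of_pos_left (hle.trans_lt hsum) hN0
      linarith
    have hWq : (0 : ℚ) < (W k E L : ℚ) := by exact_mod_cast hW0
    have h2 := mul_lt_mul_of_pos_right h1 hWq
    have h3 : (N : ℚ) * (S.card * (1 / (V : ℚ))) * (W k E L : ℚ) = 1 := by
      have hVe : (V : ℚ) = N * S.card * (W k E L : ℚ) := by
        rw [hV]
        push_cast
        ring
      have : (N : ℚ) * (S.card * (1 / (V : ℚ))) * (W k E L : ℚ)
          = (N * S.card * (W k E L : ℚ)) / (V : ℚ) := by ring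
      rw [this, ← hVe, div_self hVq.ne']
    rw [h3] at h2
    exact h2
  exact absurd (hint.trans_lt hfin) (lt_irrefl _)

end Pool.Agent.Helper81.FQ.GAP
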